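import Mathlib

/-! König: an infinite forward cluster in a locally finite directed graph contains an infinite
self-avoiding directed path. -/

namespace Pool.Agent.R957.Perc

variable {V : Type*}

/-- `y` is reached from `x` in exactly `n` steps -/
def Steps (r : V → V → Prop) : ℕ → V → V → Prop
  | 0, x, y => x = y
  | n + 1, x, y => ∃ z, r x z ∧ Steps r n z y

theorem Steps.append {r : V → V → Prop} : ∀ {n m : ℕ} {x y z : V}, Steps r n x y →
    Steps r m y z → Steps r (n + m) x z
  | 0, m, x, y, z, h, h' => by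
    rw [Nat.zero_add]
    have : x = y := h
    rw [this]
    exact h'
  | n + 1, m, x, y, z, h, h' => by
    obtain ⟨u, h1, h2⟩ := h
    have : n + 1 + m = (n + m) + 1 := by ring
    rw [this]
    exact ⟨u, h1, h2.append h'⟩

theorem steps_of_rtg {r : V → V → Prop} {x y : V} (h : Relation.ReflTransGen r x y) :
    ∃ n, Steps r n x y := by
  induction h with
  | refl => exact ⟨0, rfl⟩
  | tail _ h2 ih =>
    obtain ⟨n, hn⟩ := ih
    exact ⟨n + 1, hn.append (m := 1) ⟨_, h2, rfl⟩⟩

theorem rtg_of_steps {r : V → V → Prop} : ∀ {n : ℕ} {x y : V}, Steps r n x y →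
    Relation.ReflTransGen r x y
  | 0, x, y, h => by
    rw [show x = y from h]
  | n + 1, x, y, h => by
    obtain ⟨u, h1, h2⟩ := h
    exact Relation.ReflTransGen.head h1 (rtg_of_steps h2)

/-- descendants -/
def Desc (r : V → V → Prop) (a : V) (n : ℕ) (y : V) : Set V :=
  {z | ∃ m, Steps r m y z ∧ ∀ j, j < n + m → ¬ Steps r j a z}

theorem desc_step {r : V → V → Prop} (hfin : ∀ x, {y | r x y}.Finite) {a : V} {n : ℕ} {y : V}
    (h1 : Steps r n a y) (h2 : (Desc r a n y).Infinite) :
    ∃ y', r y y' ∧ Steps r (n + 1) a y' ∧ (Desc r a (n + 1) y').Infinite := by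
  by_contra hcon
  push Not at hcon
  apply h2
  have hsub : Desc r a n y ⊆ {y} ∪ ⋃ y' ∈ {y' | r y y'}, Desc r a (n + 1) y' := by
    rintro z ⟨m, hm, hz⟩
    cases m with
    | zero =>
      left
      exact (show y = z from hm).symm
    | succ m =>
      right
      obtain ⟨y', hy', hm'⟩ := hm
      simp only [Set.mem_iUnion]
      refine ⟨y', hy', m, hm', ?_⟩
      intro j hj
      exact hz j (by omega)
  refine Set.Finite.subset ?_ hsub
  refine (Set.finite_singleton y).union ((hfin y).biUnion (fun y' hy' => ?_))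
  exact hcon y' hy' (h1.append (m := 1) ⟨_, hy', rfl⟩)

theorem konig {r : V → V → Prop} (hfin : ∀ x, {y | r x y}.Finite) {a : V}
    (hinf : {y | Relation.ReflTransGen r a y}.Infinite) :
    ∃ w : ℕ → V, w 0 = a ∧ Function.Injective w ∧ ∀ n, r (w n) (w (n + 1)) := by
  classical
  have h0 : (Desc r a 0 a).Infinite := by
    refine hinf.mono ?_
    intro z hz
    obtain hex := steps_of_rtg hz
    refine ⟨Nat.find hex, Nat.find_spec hex, ?_⟩
    intro j hj
    exact Nat.find_min hex (by omega)
  let f : (n : ℕ) → {y // Steps r n a y ∧ (Desc r a n y).Infinite} := fun n =>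
    Nat.rec ⟨a, rfl, h0⟩ (fun n p => ⟨Classical.choose (desc_step hfin p.2.1 p.2.2),
      (Classical.choose_spec (desc_step hfin p.2.1 p.2.2)).2⟩) n
  have hf : ∀ n, r (f n).1 (f (n + 1)).1 := fun n =>
    (Classical.choose_spec (desc_step hfin (f n).2.1 (f n).2.2)).1
  refine ⟨fun n => (f n).1, rfl, ?_, hf⟩
  have key : ∀ n m : ℕ, n < m → (f n).1 ≠ (f m).1 := by
    intro n m hnm heq
    obtain ⟨z, k, hk, hz⟩ := (f m).2.2.nonempty
    have h1 : Steps r n a (f m).1 := heq ▸ (f n).2.1
    exact hz (n + k) (by omega) (h1.append hk)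
  intro n m hnm
  rcases lt_trichotomy n m with h | h | h
  · exact absurd hnm (key n m h)
  · exact h
  · exact absurd hnm.symm (key m n h)

end Pool.Agent.R957.Perc
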