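import Pool.Agent.R957.Perc.RenormDet

/-! Static renormalisation on `Z^2`: probabilistic part. -/

open MeasureTheory ProbabilityTheory Set
open scoped ENNReal

namespace Pool.Agent.R957.Perc

/-- region on which a block of level `k` depends -/
def Reg (k : ℕ) (s : ℤ × ℤ) : Set (ℤ × ℤ) :=
  {v | (7 ^ k * s.1 - 1 ≤ v.1 ∧ v.1 ≤ 7 ^ k * (s.1 + 1)) ∧
    (7 ^ k * s.2 - 1 ≤ v.2 ∧ v.2 ≤ 7 ^ k * (s.2 + 1))}

theorem reg_sub (k : ℕ) (s : ℤ × ℤ) {i j : ℤ} (h0 : 0 ≤ i) (h7 : i < 7) (h0' : 0 ≤ j)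
    (h7' : j < 7) : Reg k (7 * s.1 + i, 7 * s.2 + j) ⊆ Reg (k + 1) s := by
  intro v hv
  obtain ⟨⟨a1, a2⟩, a3, a4⟩ := hv
  simp only at a1 a2 a3 a4
  have hp : (0 : ℤ) < 7 ^ k := by positivity
  have e : (7 : ℤ) ^ (k + 1) = 7 * 7 ^ k := by ring
  refine ⟨⟨?_, ?_⟩, ?_, ?_⟩ <;> rw [e] <;> nlinarith

/-- far apart indices -/
def Far (p q : ℤ × ℤ) : Prop :=
  p.1 + 3 ≤ q.1 ∨ q.1 + 3 ≤ p.1 ∨ p.2 + 3 ≤ q.2 ∨ q.2 + 3 ≤ p.2

theorem reg_disj (k : ℕ) {s t : ℤ × ℤ} (h : Far s t) : Disjoint (Reg k s) (Reg k t) := by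
  rw [Set.disjoint_left]
  rintro v ⟨⟨a1, a2⟩, a3, a4⟩ ⟨⟨b1, b2⟩, b3, b4⟩
  have hp : (1 : ℤ) ≤ 7 ^ k := one_le_pow₀ (by norm_num)
  rcases h with h | h | h | h <;> nlinarith

variable {Ω : Type*}

/-- good event of a block -/
def GoodSet (g : ℤ × ℤ → Set Ω) (k : ℕ) (s : ℤ × ℤ) : Set Ω :=
  {ω | Good (fun v => ω ∈ g v) k s}

theorem goodSet_meas (F : Set (ℤ × ℤ) → MeasurableSpace Ω)
    (hmono : ∀ U V : Set (ℤ × ℤ), U ⊆ V → F U ≤ F V) (g : ℤ × ℤ → Set Ω)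
    (hg : ∀ v, MeasurableSet[F (Reg 0 v)] (g v)) :
    ∀ (k : ℕ) (s : ℤ × ℤ), MeasurableSet[F (Reg k s)] (GoodSet g k s)
  | 0, s => hg s
  | k + 1, s => by
    have e : GoodSet g (k + 1) s = ⋃ a : ℤ, ⋃ b : ℤ, ⋂ i : ℤ, ⋂ j : ℤ,
        {ω | 0 ≤ i → i < 7 → 0 ≤ j → j < 7 →
      (¬ (a ≤ i ∧ i ≤ a + 2) ∨ ¬ (b ≤ j ∧ j ≤ b + 2)) →
        ω ∈ GoodSet g k (7 * s.1 + i, 7 * s.2 + j)} := by
      ext ω
      simp only [mem_iUnion, mem_iInter, mem_ofPred_eq]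
      rfl
    rw [e]
    refine @MeasurableSet.iUnion _ _ (F (Reg (k + 1) s)) _ _ (fun a => ?_)
    refine @MeasurableSet.iUnion _ _ (F (Reg (k + 1) s)) _ _ (fun b => ?_)
    refine @MeasurableSet.iInter _ _ (F (Reg (k + 1) s)) _ _ (fun i => ?_)
    refine @MeasurableSet.iInter _ _ (F (Reg (k + 1) s)) _ _ (fun j => ?_)
    by_cases hc : (0 ≤ i ∧ i < 7 ∧ 0 ≤ j ∧ j < 7) ∧
      (¬ (a ≤ i ∧ i ≤ a + 2) ∨ ¬ (b ≤ j ∧ j ≤ b + 2))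
    · have h2 : {ω | 0 ≤ i → i < 7 → 0 ≤ j → j < 7 →
          (¬ (a ≤ i ∧ i ≤ a + 2) ∨ ¬ (b ≤ j ∧ j ≤ b + 2)) →
          ω ∈ GoodSet g k (7 * s.1 + i, 7 * s.2 + j)} =
          GoodSet g k (7 * s.1 + i, 7 * s.2 + j) := by
        ext ω
        constructor
        · intro h
          exact h hc.1.1 hc.1.2.1 hc.1.2.2.1 hc.1.2.2.2 hc.2
        · intro h _ _ _ _ _
          exact h
      rw [h2]
      exact hmono _ _ (reg_sub k s hc.1.1 hc.1.2.1 hc.1.2.2.1 hc.1.2.2.2) _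
        (goodSet_meas F hmono g hg k _)
    · have h2 : {ω | 0 ≤ i → i < 7 → 0 ≤ j → j < 7 →
          (¬ (a ≤ i ∧ i ≤ a + 2) ∨ ¬ (b ≤ j ∧ j ≤ b + 2)) →
          ω ∈ GoodSet g k (7 * s.1 + i, 7 * s.2 + j)} = univ := by
        ext ω
        simp only [mem_ofPred_eq, mem_univ, iff_true]
        intro a1 a2 a3 a4 a5
        exact absurd ⟨⟨a1, a2, a3, a4⟩, a5⟩ hc
      rw [h2]
      exact @MeasurableSet.univ _ (F (Reg (k + 1) s))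

/-- index set -/
noncomputable def S7 : Finset (ℤ × ℤ) := Finset.Ico 0 7 ×ˢ Finset.Ico 0 7

theorem mem_S7 {p : ℤ × ℤ} : p ∈ S7 ↔ (0 ≤ p.1 ∧ p.1 < 7) ∧ (0 ≤ p.2 ∧ p.2 < 7) := by
  unfold S7
  simp [Finset.mem_product]

theorem card_S7 : S7.card = 49 := by
  unfold S7
  rw [Finset.card_product, Int.card_Ico]
  rfl

instance (p q : ℤ × ℤ) : Decidable (Far p q) := by
  unfold Far
  infer_instance

/-- far pairs -/
noncomputable def FP : Finset ((ℤ × ℤ) × (ℤ × ℤ)) := (S7 ×ˢ S7).filter (fun x => Far x.1 x.2)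

theorem card_FP : FP.card ≤ 2401 := by
  refine (Finset.card_filter_le _ _).trans ?_
  rw [Finset.card_product, card_S7]

theorem mem_FP {x : (ℤ × ℤ) × (ℤ × ℤ)} : x ∈ FP ↔ (x.1 ∈ S7 ∧ x.2 ∈ S7) ∧ Far x.1 x.2 := by
  simp only [FP, Finset.mem_filter, Finset.mem_product]

theorem bad_sub (g : ℤ × ℤ → Set Ω) (k : ℕ) (s : ℤ × ℤ) : (GoodSet g (k + 1) s)ᶜ ⊆
    ⋃ x ∈ FP, ((GoodSet g k (7 * s.1 + x.1.1, 7 * s.2 + x.1.2))ᶜ ∩
      (GoodSet g k (7 * s.1 + x.2.1, 7 * s.2 + x.2.2))ᶜ) := by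
  classical
  intro ω hω
  by_contra hcon
  apply hω
  simp only [mem_iUnion, not_exists] at hcon
  let B : Finset (ℤ × ℤ) := S7.filter (fun p => ω ∉ GoodSet g k (7 * s.1 + p.1, 7 * s.2 + p.2))
  have hB : ∀ p, p ∈ B ↔ p ∈ S7 ∧ ω ∉ GoodSet g k (7 * s.1 + p.1, 7 * s.2 + p.2) := by
    intro p
    simp only [B, Finset.mem_filter]
  rcases B.eq_empty_or_nonempty with he | hne
  · refine ⟨0, 0, fun i j h0 h7 h0' h7' _ => ?_⟩
    by_contra hb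
    have : (i, j) ∈ B := (hB _).2 ⟨mem_S7.2 ⟨⟨h0, h7⟩, h0', h7'⟩, hb⟩
    rw [he] at this
    exact absurd this (Finset.notMem_empty _)
  · obtain ⟨p, hp, hpm⟩ := B.exists_min_image Prod.fst hne
    obtain ⟨q, hq, hqm⟩ := B.exists_min_image Prod.snd hne
    refine ⟨p.1, q.2, fun i j h0 h7 h0' h7' hw => ?_⟩
    by_contra hb
    have hm : (i, j) ∈ B := (hB _).2 ⟨mem_S7.2 ⟨⟨h0, h7⟩, h0', h7'⟩, hb⟩
    have hnf : ∀ r ∈ B, ¬ Far r (i, j) := by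
      intro r hr hf
      refine hcon (r, (i, j)) ?_ ⟨((hB _).1 hr).2, ((hB _).1 hm).2⟩
      exact mem_FP.2 ⟨⟨((hB _).1 hr).1, ((hB _).1 hm).1⟩, hf⟩
    have f1 := hnf p hp
    have f2 := hnf q hq
    have g1 := hpm _ hm
    have g2 := hqm _ hm
    unfold Far at f1 f2
    simp only at f1 f2 g1 g2
    omega

theorem bad_bound [mΩ : MeasurableSpace Ω] (P : Measure Ω) [IsProbabilityMeasure P]
    (F : Set (ℤ × ℤ) → MeasurableSpace Ω)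
    (hmono : ∀ U V : Set (ℤ × ℤ), U ⊆ V → F U ≤ F V)
    (hind : ∀ U V : Set (ℤ × ℤ), Disjoint U V → Indep (F U) (F V) P)
    (g : ℤ × ℤ → Set Ω) (hg : ∀ v, MeasurableSet[F (Reg 0 v)] (g v))
    (hq : ∀ v, P (g v)ᶜ ≤ 2401⁻¹ * 4⁻¹) : ∀ (k : ℕ) (s : ℤ × ℤ),
    P (GoodSet g k s)ᶜ ≤ 2401⁻¹ * (4⁻¹) ^ (2 ^ k)
  | 0, s => by
    have h : GoodSet g 0 s = g s := rfl
    rw [h]
    simpa using hq s
  | k + 1, s => by
    have ih := bad_bound P F hmono hind g hg hq k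
    have h1 := measure_mono (μ := P) (bad_sub g k s)
    have h2 : P (⋃ x ∈ FP, ((GoodSet g k (7 * s.1 + x.1.1, 7 * s.2 + x.1.2))ᶜ ∩
      (GoodSet g k (7 * s.1 + x.2.1, 7 * s.2 + x.2.2))ᶜ)) ≤
      ∑ x ∈ FP, (2401⁻¹ * (4⁻¹) ^ (2 ^ k)) * (2401⁻¹ * (4⁻¹) ^ (2 ^ k)) := by
      refine (measure_biUnion_finset_le _ _).trans (Finset.sum_le_sum (fun x hx => ?_))
      have hx' : Far x.1 x.2 := (mem_FP.1 hx).2
      have hfar : Far (7 * s.1 + x.1.1, 7 * s.2 + x.1.2) (7 * s.1 + x.2.1, 7 * s.2 + x.2.2) := by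
        unfold Far at *
        simp only
        omega
      have hi := (Indep_iff _ _ _).1 (hind _ _ (reg_disj k hfar)) _ _
        (goodSet_meas F hmono g hg k _).compl (goodSet_meas F hmono g hg k _).compl
      rw [hi]
      exact mul_le_mul' (ih _) (ih _)
    refine h1.trans (h2.trans ?_)
    rw [Finset.sum_const, nsmul_eq_mul]
    have h3 : ((FP.card : ℕ) : ℝ≥0∞) ≤ 2401 := by
      have := card_FP
      exact_mod_cast this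
    calc ((FP.card : ℕ) : ℝ≥0∞) * ((2401⁻¹ * (4⁻¹) ^ (2 ^ k)) * (2401⁻¹ * (4⁻¹) ^ (2 ^ k)))
        ≤ 2401 * ((2401⁻¹ * (4⁻¹) ^ (2 ^ k)) * (2401⁻¹ * (4⁻¹) ^ (2 ^ k))) :=
          mul_le_mul' h3 le_rfl
      _ = (2401 * 2401⁻¹) * (2401⁻¹ * ((4⁻¹) ^ (2 ^ k) * (4⁻¹) ^ (2 ^ k))) := by ring
      _ = 2401⁻¹ * (4⁻¹) ^ (2 ^ (k + 1)) := by
          rw [ENNReal.mul_inv_cancel (by norm_num) (by norm_num), one_mul, ← pow_add]
          congr 2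
          ring

/-- Percolation of good sites in a finite range dependent model with high density. -/
theorem percolates [mΩ : MeasurableSpace Ω] (P : Measure Ω) [IsProbabilityMeasure P]
    (F : Set (ℤ × ℤ) → MeasurableSpace Ω)
    (hmono : ∀ U V : Set (ℤ × ℤ), U ⊆ V → F U ≤ F V) (hle : ∀ U, F U ≤ mΩ)
    (hind : ∀ U V : Set (ℤ × ℤ), Disjoint U V → Indep (F U) (F V) P)
    (g : ℤ × ℤ → Set Ω) (hg : ∀ v, MeasurableSet[F (Reg 0 v)] (g v))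
    (hq : ∀ v, P (g v)ᶜ ≤ 2401⁻¹ * 4⁻¹) :
    0 < P {ω | {v : ℤ × ℤ | Link (fun v => ω ∈ g v) (0, 0) v}.Infinite} := by
  have hsub : (⋃ k : ℕ, ⋃ s ∈ S7, (GoodSet g k s)ᶜ)ᶜ ⊆
      {ω | {v : ℤ × ℤ | Link (fun v => ω ∈ g v) (0, 0) v}.Infinite} := by
    intro ω hω
    apply infinite_of_good
    intro k i j h0 h7 h0' h7'
    by_contra hb
    apply hω
    simp only [mem_iUnion]
    exact ⟨k, (i, j), mem_S7.2 ⟨⟨h0, h7⟩, h0', h7'⟩, hb⟩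
  have hbad : P (⋃ k : ℕ, ⋃ s ∈ S7, (GoodSet g k s)ᶜ) ≤ 2⁻¹ := by
    refine (measure_iUnion_le _).trans ?_
    have h1 : ∀ k : ℕ, P (⋃ s ∈ S7, (GoodSet g k s)ᶜ) ≤ 4⁻¹ * 2⁻¹ ^ k := by
      intro k
      refine (measure_biUnion_finset_le _ _).trans ?_
      refine (Finset.sum_le_sum (fun s _ => bad_bound P F hmono hind g hg hq k s)).trans ?_
      rw [Finset.sum_const, card_S7, nsmul_eq_mul]
      have h49 : ((49 : ℕ) : ℝ≥0∞) * 2401⁻¹ ≤ 1 := by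
        rw [← div_eq_mul_inv]
        apply ENNReal.div_le_of_le_mul
        rw [one_mul]
        norm_num
      have h4 : (4⁻¹ : ℝ≥0∞) ≤ 1 := by simp
      have h42 : (4⁻¹ : ℝ≥0∞) ≤ 2⁻¹ := by
        rw [ENNReal.inv_le_inv]
        norm_num
      have hk : k + 1 ≤ 2 ^ k := Nat.lt_pow_self (by norm_num)
      calc ((49 : ℕ) : ℝ≥0∞) * (2401⁻¹ * 4⁻¹ ^ 2 ^ k) = ((49 : ℕ) : ℝ≥0∞) * 2401⁻¹ *
            4⁻¹ ^ 2 ^ k := by rw [mul_assoc]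
        _ ≤ 1 * 4⁻¹ ^ (k + 1) := mul_le_mul' h49 (pow_le_pow_right_of_le_one' h4 hk)
        _ = 4⁻¹ * 4⁻¹ ^ k := by rw [one_mul, pow_succ, mul_comm]
        _ ≤ 4⁻¹ * 2⁻¹ ^ k := mul_le_mul' le_rfl (pow_le_pow_left' h42 k)
    refine (ENNReal.tsum_le_tsum h1).trans ?_
    rw [ENNReal.tsum_mul_left, ENNReal.tsum_geometric, ENNReal.one_sub_inv_two, inv_inv]
    rw [← ENNReal.mul_le_mul_iff_right (a := 4) (by norm_num) (by norm_num), ← mul_assoc,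
      ENNReal.mul_inv_cancel (by norm_num) (by norm_num), one_mul]
    have : (4 : ℝ≥0∞) * 2⁻¹ = 2 * (2 * 2⁻¹) := by
      rw [← mul_assoc]
      norm_num
    rw [this, ENNReal.mul_inv_cancel (by norm_num) (by norm_num), mul_one]
  have hmeas : MeasurableSet (⋃ k : ℕ, ⋃ s ∈ S7, (GoodSet g k s)ᶜ) := by
    refine MeasurableSet.iUnion (fun k => Finset.measurableSet_biUnion _ (fun s _ => ?_))
    exact (hle _ _ (goodSet_meas F hmono g hg k s)).compl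
  refine lt_of_lt_of_le ?_ (measure_mono hsub)
  rw [measure_compl hmeas (measure_ne_top _ _), measure_univ]
  refine lt_of_lt_of_le ?_ (tsub_le_tsub_left hbad 1)
  rw [ENNReal.one_sub_inv_two]
  norm_num

end Pool.Agent.R957.Perc
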