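import Mathlib

/-! Static renormalisation on `Z^2`: deterministic part. -/

namespace Pool.Agent.R957.Perc

/-- nearest neighbours in `Z^2` -/
def Adj (u v : ℤ × ℤ) : Prop :=
  (u.1 = v.1 ∧ (u.2 = v.2 + 1 ∨ v.2 = u.2 + 1)) ∨ (u.2 = v.2 ∧ (u.1 = v.1 + 1 ∨ v.1 = u.1 + 1))

theorem Adj.symm {u v : ℤ × ℤ} (h : Adj u v) : Adj v u := by
  unfold Adj at *
  omega

/-- linked by a path of good sites -/
def Link (g : ℤ × ℤ → Prop) (u v : ℤ × ℤ) : Prop :=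
  Relation.ReflTransGen (fun u v => Adj u v ∧ g u ∧ g v) u v

theorem Link.symm {g : ℤ × ℤ → Prop} {u v : ℤ × ℤ} (h : Link g u v) : Link g v u := by
  unfold Link at *
  induction h with
  | refl => exact Relation.ReflTransGen.refl
  | tail _ h2 ih => exact Relation.ReflTransGen.head ⟨h2.1.symm, h2.2.2, h2.2.1⟩ ih

theorem Link.trans {g : ℤ × ℤ → Prop} {u v w : ℤ × ℤ} (h : Link g u v) (h' : Link g v w) :
    Link g u w := Relation.ReflTransGen.trans h h'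

/-- good blocks of level `k` -/
def Good (g : ℤ × ℤ → Prop) : ℕ → ℤ × ℤ → Prop
  | 0, s => g s
  | k + 1, s => ∃ a b : ℤ, ∀ i j : ℤ, 0 ≤ i → i < 7 → 0 ≤ j → j < 7 →
      (¬ (a ≤ i ∧ i ≤ a + 2) ∨ ¬ (b ≤ j ∧ j ≤ b + 2)) → Good g k (7 * s.1 + i, 7 * s.2 + j)

/-- representative sites of a block of level `k` -/
def Rep (g : ℤ × ℤ → Prop) : ℕ → ℤ × ℤ → ℤ × ℤ → Prop
  | 0, s, v => v = s
  | k + 1, s, v => ∃ i j : ℤ, (0 ≤ i ∧ i < 7 ∧ 0 ≤ j ∧ j < 7) ∧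
      ((∀ i' : ℤ, 0 ≤ i' → i' < 7 → Good g k (7 * s.1 + i', 7 * s.2 + j)) ∨
        (∀ j' : ℤ, 0 ≤ j' → j' < 7 → Good g k (7 * s.1 + i, 7 * s.2 + j'))) ∧
      Rep g k (7 * s.1 + i, 7 * s.2 + j) v

theorem exists_free (a : ℤ) : ∃ c : ℤ, 0 ≤ c ∧ c < 7 ∧ ¬ (a ≤ c ∧ c ≤ a + 2) := by
  by_cases h : a ≤ 0 ∧ 0 ≤ a + 2
  · exact ⟨3, by norm_num, by norm_num, by omega⟩
  · exact ⟨0, by norm_num, by norm_num, by omega⟩

theorem exists_free2 (a b : ℤ) :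
    ∃ c : ℤ, 0 ≤ c ∧ c < 7 ∧ ¬ (a ≤ c ∧ c ≤ a + 2) ∧ ¬ (b ≤ c ∧ c ≤ b + 2) := by
  by_contra h
  push Not at h
  have h0 := h 0 (by norm_num) (by norm_num)
  have h3 := h 3 (by norm_num) (by norm_num)
  have h6 := h 6 (by norm_num) (by norm_num)
  omega

theorem rep_exists (g : ℤ × ℤ → Prop) : ∀ (k : ℕ) (s : ℤ × ℤ), Good g k s → ∃ v, Rep g k s v
  | 0, s, _ => ⟨s, rfl⟩
  | k + 1, s, h => by
    obtain ⟨a, b, hab⟩ := h
    obtain ⟨c, hc0, hc7, hc⟩ := exists_free a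
    have hcol : ∀ j' : ℤ, 0 ≤ j' → j' < 7 → Good g k (7 * s.1 + c, 7 * s.2 + j') :=
      fun j' h0 h7 => hab c j' hc0 hc7 h0 h7 (Or.inl hc)
    obtain ⟨v, hv⟩ := rep_exists g k _ (hcol 0 le_rfl (by norm_num))
    exact ⟨v, c, 0, ⟨hc0, hc7, le_rfl, by norm_num⟩, Or.inr hcol, hv⟩

/-- all representatives of `p` are linked to all representatives of `q` -/
def Same (g : ℤ × ℤ → Prop) (k : ℕ) (p q : ℤ × ℤ) : Prop :=
  ∀ u v, Rep g k p u → Rep g k q v → Link g u v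

theorem Same.symm {g : ℤ × ℤ → Prop} {k : ℕ} {p q : ℤ × ℤ} (h : Same g k p q) : Same g k q p :=
  fun u v hu hv => (h v u hv hu).symm

theorem Same.trans {g : ℤ × ℤ → Prop} {k : ℕ} {p q r : ℤ × ℤ} (h : Same g k p q)
    (h' : Same g k q r) (hq : Good g k q) : Same g k p r := by
  obtain ⟨w, hw⟩ := rep_exists g k q hq
  exact fun u v hu hv => (h u w hu hw).trans (h' w v hw hv)

/-- along a line of good blocks -/
theorem line_same {g : ℤ × ℤ → Prop} {k : ℕ}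
    (h1 : ∀ s, Good g k s → Same g k s s)
    (h2 : ∀ s t, Adj s t → Good g k s → Good g k t → Same g k s t)
    (P : ℤ → ℤ × ℤ) (hP : ∀ i : ℤ, 0 ≤ i → i + 1 < 7 → Adj (P i) (P (i + 1)))
    (hg : ∀ i : ℤ, 0 ≤ i → i < 7 → Good g k (P i)) {i j : ℤ} (hi : 0 ≤ i) (hi' : i < 7)
    (hj : 0 ≤ j) (hj' : j < 7) : Same g k (P i) (P j) := by
  have key : ∀ n : ℕ, (n : ℤ) < 7 → Same g k (P 0) (P n) := by
    intro n
    induction n with
    | zero => intro _; exact h1 _ (hg 0 le_rfl (by norm_num))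
    | succ n ih =>
      intro hn
      push_cast at hn
      have a1 := ih (by omega)
      have a2 := h2 _ _ (hP n (by positivity) hn) (hg n (by positivity) (by omega))
        (hg (n + 1) (by positivity) hn)
      have a3 := a1.trans a2 (hg n (by positivity) (by omega))
      push_cast
      exact a3
  obtain ⟨n, rfl⟩ := Int.eq_ofNat_of_zero_le hi
  obtain ⟨m, rfl⟩ := Int.eq_ofNat_of_zero_le hj
  exact (key n hi').symm.trans (key m hj') (hg 0 le_rfl (by norm_num))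

theorem hub {g : ℤ × ℤ → Prop} {k : ℕ}
    (h1 : ∀ s, Good g k s → Same g k s s)
    (h2 : ∀ s t, Adj s t → Good g k s → Good g k t → Same g k s t) {s : ℤ × ℤ} {c r : ℤ}
    (hc : 0 ≤ c ∧ c < 7) (hr : 0 ≤ r ∧ r < 7)
    (hcol : ∀ j' : ℤ, 0 ≤ j' → j' < 7 → Good g k (7 * s.1 + c, 7 * s.2 + j'))
    (hrow : ∀ i' : ℤ, 0 ≤ i' → i' < 7 → Good g k (7 * s.1 + i', 7 * s.2 + r)) {i j : ℤ}
    (hij : 0 ≤ i ∧ i < 7 ∧ 0 ≤ j ∧ j < 7)
    (h : (∀ i' : ℤ, 0 ≤ i' → i' < 7 → Good g k (7 * s.1 + i', 7 * s.2 + j)) ∨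
        (∀ j' : ℤ, 0 ≤ j' → j' < 7 → Good g k (7 * s.1 + i, 7 * s.2 + j'))) :
    Same g k (7 * s.1 + i, 7 * s.2 + j) (7 * s.1 + c, 7 * s.2 + r) := by
  have rowline : ∀ y : ℤ, (∀ i' : ℤ, 0 ≤ i' → i' < 7 → Good g k (7 * s.1 + i', 7 * s.2 + y)) →
      ∀ {x x' : ℤ}, 0 ≤ x → x < 7 → 0 ≤ x' → x' < 7 →
      Same g k (7 * s.1 + x, 7 * s.2 + y) (7 * s.1 + x', 7 * s.2 + y) := by
    intro y hy x x' a b c d
    exact line_same h1 h2 (fun t => (7 * s.1 + t, 7 * s.2 + y))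
      (fun t _ _ => Or.inr ⟨rfl, Or.inr (add_assoc _ _ _).symm⟩) hy a b c d
  have colline : ∀ x : ℤ, (∀ j' : ℤ, 0 ≤ j' → j' < 7 → Good g k (7 * s.1 + x, 7 * s.2 + j')) →
      ∀ {y y' : ℤ}, 0 ≤ y → y < 7 → 0 ≤ y' → y' < 7 →
      Same g k (7 * s.1 + x, 7 * s.2 + y) (7 * s.1 + x, 7 * s.2 + y') := by
    intro x hx y y' a b c d
    exact line_same h1 h2 (fun t => (7 * s.1 + x, 7 * s.2 + t))
      (fun t _ _ => Or.inl ⟨rfl, Or.inr (add_assoc _ _ _).symm⟩) hx a b c d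
  rcases h with h | h
  · exact (rowline j h hij.1 hij.2.1 hc.1 hc.2).trans
      (colline c hcol hij.2.2.1 hij.2.2.2 hr.1 hr.2) (h c hc.1 hc.2)
  · exact (colline i h hij.2.2.1 hij.2.2.2 hr.1 hr.2).trans
      (rowline r hrow hij.1 hij.2.1 hc.1 hc.2) (h r hr.1 hr.2)

theorem main_det (g : ℤ × ℤ → Prop) : ∀ k : ℕ, (∀ s, Good g k s → Same g k s s) ∧
    (∀ s t, Adj s t → Good g k s → Good g k t → Same g k s t) := by
  intro k
  induction k with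
  | zero =>
    constructor
    · rintro s _ u v rfl rfl
      exact Relation.ReflTransGen.refl
    · rintro s t hst hs ht u v rfl rfl
      exact Relation.ReflTransGen.single ⟨hst, hs, ht⟩
  | succ k ih =>
    obtain ⟨h1, h2⟩ := ih
    -- general hub statement
    have cls : ∀ (s : ℤ × ℤ) (c r : ℤ), (0 ≤ c ∧ c < 7) → (0 ≤ r ∧ r < 7) →
        (∀ j' : ℤ, 0 ≤ j' → j' < 7 → Good g k (7 * s.1 + c, 7 * s.2 + j')) →
        (∀ i' : ℤ, 0 ≤ i' → i' < 7 → Good g k (7 * s.1 + i', 7 * s.2 + r)) →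
        ∀ u w, Rep g (k + 1) s u → Rep g k (7 * s.1 + c, 7 * s.2 + r) w → Link g u w := by
      intro s c r hc hr hcol hrow u w hu hw
      obtain ⟨i, j, hij, hfull, hrep⟩ := hu
      exact hub h1 h2 hc hr hcol hrow hij hfull u w hrep hw
    have horiz : ∀ s t : ℤ × ℤ, t.1 = s.1 + 1 → t.2 = s.2 → Good g (k + 1) s →
        Good g (k + 1) t → Same g (k + 1) s t := by
      intro s t e1 e2 hs ht u v hu hv
      obtain ⟨a, b, hab⟩ := hs
      obtain ⟨a', b', hab'⟩ := ht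
      obtain ⟨c, hc0, hc7, hc⟩ := exists_free a
      obtain ⟨c', hc0', hc7', hc'⟩ := exists_free a'
      obtain ⟨r, hr0, hr7, hr, hr'⟩ := exists_free2 b b'
      have hcol : ∀ j' : ℤ, 0 ≤ j' → j' < 7 → Good g k (7 * s.1 + c, 7 * s.2 + j') :=
        fun j' h0 h7 => hab c j' hc0 hc7 h0 h7 (Or.inl hc)
      have hcol' : ∀ j' : ℤ, 0 ≤ j' → j' < 7 → Good g k (7 * t.1 + c', 7 * t.2 + j') :=
        fun j' h0 h7 => hab' c' j' hc0' hc7' h0 h7 (Or.inl hc')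
      have hrow : ∀ i' : ℤ, 0 ≤ i' → i' < 7 → Good g k (7 * s.1 + i', 7 * s.2 + r) :=
        fun i' h0 h7 => hab i' r h0 h7 hr0 hr7 (Or.inr hr)
      have hrow' : ∀ i' : ℤ, 0 ≤ i' → i' < 7 → Good g k (7 * t.1 + i', 7 * t.2 + r) :=
        fun i' h0 h7 => hab' i' r h0 h7 hr0 hr7 (Or.inr hr')
      have gs := hrow 6 (by norm_num) (by norm_num)
      have gt := hrow' 0 (by norm_num) (by norm_num)
      have m1 : Same g k (7 * s.1 + 6, 7 * s.2 + r) (7 * t.1 + 0, 7 * t.2 + r) :=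
        h2 _ _ (by unfold Adj; simp only; omega) gs gt
      have m2 : Same g k (7 * s.1 + 6, 7 * s.2 + r) (7 * s.1 + c, 7 * s.2 + r) :=
        hub h1 h2 ⟨hc0, hc7⟩ ⟨hr0, hr7⟩ hcol hrow ⟨by norm_num, by norm_num, hr0, hr7⟩
          (Or.inl hrow)
      have m3 : Same g k (7 * t.1 + 0, 7 * t.2 + r) (7 * t.1 + c', 7 * t.2 + r) :=
        hub h1 h2 ⟨hc0', hc7'⟩ ⟨hr0, hr7⟩ hcol' hrow' ⟨by norm_num, by norm_num, hr0, hr7⟩
          (Or.inl hrow')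
      obtain ⟨w1, hw1⟩ := rep_exists g k _ (hrow c hc0 hc7)
      obtain ⟨w2, hw2⟩ := rep_exists g k _ gs
      obtain ⟨w3, hw3⟩ := rep_exists g k _ gt
      obtain ⟨w4, hw4⟩ := rep_exists g k _ (hrow' c' hc0' hc7')
      have l1 := cls s c r ⟨hc0, hc7⟩ ⟨hr0, hr7⟩ hcol hrow u w1 hu hw1
      have l2 := (m2 w2 w1 hw2 hw1).symm
      have l3 := m1 w2 w3 hw2 hw3
      have l4 := m3 w3 w4 hw3 hw4
      have l5 := (cls t c' r ⟨hc0', hc7'⟩ ⟨hr0, hr7⟩ hcol' hrow' v w4 hv hw4).symm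
      exact (((l1.trans l2).trans l3).trans l4).trans l5
    have vert : ∀ s t : ℤ × ℤ, t.1 = s.1 → t.2 = s.2 + 1 → Good g (k + 1) s →
        Good g (k + 1) t → Same g (k + 1) s t := by
      intro s t e1 e2 hs ht u v hu hv
      obtain ⟨a, b, hab⟩ := hs
      obtain ⟨a', b', hab'⟩ := ht
      obtain ⟨r, hr0, hr7, hr⟩ := exists_free b
      obtain ⟨r', hr0', hr7', hr'⟩ := exists_free b'
      obtain ⟨c, hc0, hc7, hc, hc'⟩ := exists_free2 a a'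
      have hrow : ∀ i' : ℤ, 0 ≤ i' → i' < 7 → Good g k (7 * s.1 + i', 7 * s.2 + r) :=
        fun i' h0 h7 => hab i' r h0 h7 hr0 hr7 (Or.inr hr)
      have hrow' : ∀ i' : ℤ, 0 ≤ i' → i' < 7 → Good g k (7 * t.1 + i', 7 * t.2 + r') :=
        fun i' h0 h7 => hab' i' r' h0 h7 hr0' hr7' (Or.inr hr')
      have hcol : ∀ j' : ℤ, 0 ≤ j' → j' < 7 → Good g k (7 * s.1 + c, 7 * s.2 + j') :=
        fun j' h0 h7 => hab c j' hc0 hc7 h0 h7 (Or.inl hc)
      have hcol' : ∀ j' : ℤ, 0 ≤ j' → j' < 7 → Good g k (7 * t.1 + c, 7 * t.2 + j') :=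
        fun j' h0 h7 => hab' c j' hc0 hc7 h0 h7 (Or.inl hc')
      have gs := hcol 6 (by norm_num) (by norm_num)
      have gt := hcol' 0 (by norm_num) (by norm_num)
      have m1 : Same g k (7 * s.1 + c, 7 * s.2 + 6) (7 * t.1 + c, 7 * t.2 + 0) :=
        h2 _ _ (by unfold Adj; simp only; omega) gs gt
      have m2 : Same g k (7 * s.1 + c, 7 * s.2 + 6) (7 * s.1 + c, 7 * s.2 + r) :=
        hub h1 h2 ⟨hc0, hc7⟩ ⟨hr0, hr7⟩ hcol hrow ⟨hc0, hc7, by norm_num, by norm_num⟩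
          (Or.inr hcol)
      have m3 : Same g k (7 * t.1 + c, 7 * t.2 + 0) (7 * t.1 + c, 7 * t.2 + r') :=
        hub h1 h2 ⟨hc0, hc7⟩ ⟨hr0', hr7'⟩ hcol' hrow' ⟨hc0, hc7, by norm_num, by norm_num⟩
          (Or.inr hcol')
      obtain ⟨w1, hw1⟩ := rep_exists g k _ (hrow c hc0 hc7)
      obtain ⟨w2, hw2⟩ := rep_exists g k _ gs
      obtain ⟨w3, hw3⟩ := rep_exists g k _ gt
      obtain ⟨w4, hw4⟩ := rep_exists g k _ (hrow' c hc0 hc7)
      have l1 := cls s c r ⟨hc0, hc7⟩ ⟨hr0, hr7⟩ hcol hrow u w1 hu hw1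
      have l2 := (m2 w2 w1 hw2 hw1).symm
      have l3 := m1 w2 w3 hw2 hw3
      have l4 := m3 w3 w4 hw3 hw4
      have l5 := (cls t c r' ⟨hc0, hc7⟩ ⟨hr0', hr7'⟩ hcol' hrow' v w4 hv hw4).symm
      exact (((l1.trans l2).trans l3).trans l4).trans l5
    constructor
    · intro s hs u v hu hv
      obtain ⟨a, b, hab⟩ := hs
      obtain ⟨c, hc0, hc7, hc⟩ := exists_free a
      obtain ⟨r, hr0, hr7, hr⟩ := exists_free b
      have hcol : ∀ j' : ℤ, 0 ≤ j' → j' < 7 → Good g k (7 * s.1 + c, 7 * s.2 + j') :=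
        fun j' h0 h7 => hab c j' hc0 hc7 h0 h7 (Or.inl hc)
      have hrow : ∀ i' : ℤ, 0 ≤ i' → i' < 7 → Good g k (7 * s.1 + i', 7 * s.2 + r) :=
        fun i' h0 h7 => hab i' r h0 h7 hr0 hr7 (Or.inr hr)
      obtain ⟨w, hw⟩ := rep_exists g k _ (hrow c hc0 hc7)
      exact (cls s c r ⟨hc0, hc7⟩ ⟨hr0, hr7⟩ hcol hrow u w hu hw).trans
        (cls s c r ⟨hc0, hc7⟩ ⟨hr0, hr7⟩ hcol hrow v w hv hw).symm
    · intro s t hst hs ht
      unfold Adj at hst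
      rcases hst with ⟨e, e' | e'⟩ | ⟨e, e' | e'⟩
      · exact (vert t s e e' ht hs).symm
      · exact vert s t e.symm e' hs ht
      · exact (horiz t s e' e ht hs).symm
      · exact horiz s t e' e.symm hs ht

theorem rep_loc (g : ℤ × ℤ → Prop) : ∀ (k : ℕ) (s v : ℤ × ℤ), Rep g k s v → 7 ^ k * s.1 ≤ v.1
  | 0, s, v, h => by
    rw [show v = s from h]
    simp
  | k + 1, s, v, h => by
    obtain ⟨i, j, hij, _, hrep⟩ := h
    have := rep_loc g k _ _ hrep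
    simp only at this
    have h7 : (0 : ℤ) < 7 ^ k := by positivity
    calc (7 : ℤ) ^ (k + 1) * s.1 = 7 ^ k * (7 * s.1) := by ring
      _ ≤ 7 ^ k * (7 * s.1 + i) := by
          apply mul_le_mul_of_nonneg_left _ h7.le
          linarith [hij.1]
      _ ≤ v.1 := this

/-- If all blocks with indices in `[0,7)^2` are good at all levels the cluster of the origin is
infinite. -/
theorem infinite_of_good (g : ℤ × ℤ → Prop)
    (h : ∀ (k : ℕ) (i j : ℤ), 0 ≤ i → i < 7 → 0 ≤ j → j < 7 → Good g k (i, j)) :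
    {v : ℤ × ℤ | Link g (0, 0) v}.Infinite := by
  have h0 : ∀ k, Rep g k (0, 0) (0, 0) := by
    intro k
    induction k with
    | zero => rfl
    | succ k ih =>
      refine ⟨0, 0, by norm_num, Or.inl ?_, ?_⟩
      · intro i' h0 h7
        have := h k i' 0 h0 h7 le_rfl (by norm_num)
        simpa using this
      · simpa using ih
  have hg : ∀ k, Good g (k + 1) (0, 0) := fun k => h (k + 1) 0 0 le_rfl (by norm_num) le_rfl
    (by norm_num)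
  have hfar : ∀ k : ℕ, ∃ v, Link g (0, 0) v ∧ (7 : ℤ) ^ k * 6 ≤ v.1 := by
    intro k
    obtain ⟨v, hv⟩ := rep_exists g k _ (h k 6 0 (by norm_num) (by norm_num) le_rfl (by norm_num))
    refine ⟨v, ?_, rep_loc g k _ _ hv⟩
    refine (main_det g (k + 1)).1 (0, 0) (hg k) _ _ (h0 (k + 1)) ?_
    refine ⟨6, 0, by norm_num, Or.inl ?_, ?_⟩
    · intro i' h0 h7
      have := h k i' 0 h0 h7 le_rfl (by norm_num)
      simpa using this
    · simpa using hv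
  intro hfin
  have hb := (hfin.image Prod.fst).bddAbove
  obtain ⟨M, hM⟩ := hb
  obtain ⟨v, hv, hv2⟩ := hfar M.toNat
  have h1 : v.1 ≤ M := hM ⟨v, hv, rfl⟩
  have h2 : (M.toNat : ℤ) < 7 ^ M.toNat := by
    have : M.toNat < 7 ^ M.toNat := Nat.lt_pow_self (by norm_num)
    exact_mod_cast this
  have h3 : M ≤ M.toNat := Int.self_le_toNat M
  nlinarith [pow_pos (show (0 : ℤ) < 7 by norm_num) M.toNat]

end Pool.Agent.R957.Perc
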